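import Pool.Agent.H14.LB.Flow

/-!
# Hyperbolic geometry for MP_fc7159_al: the Morse lemma for the word metric

From Gromov's four point condition: stability of quasi-geodesics (`morse_near`, `morse_btw`), the
Morse lemma for bi-infinite quasi-geodesics, quasi-convexity of cyclic subgroups generated by an
element of non-zero height, and the bridge lemma for a quasi-convex subgroup `S` and such an
element no power of which is in `S`.
-/

open scoped Pointwise

noncomputable section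

namespace LB

section Hyp

variable {G : Type} [Group G] {A : Finset G}

lemma inv_mem_ball {x : G} {r : ℕ} (hx : x ∈ ball A r) : x⁻¹ ∈ ball A r := by
  obtain ⟨l, hl, hA, rfl⟩ := hx
  refine ⟨(l.map fun x => x⁻¹).reverse, by simpa using hl, ?_, (List.prod_inv_reverse l).symm⟩
  intro a ha
  rw [List.mem_reverse, List.mem_map] at ha
  obtain ⟨b, hb, rfl⟩ := ha
  rcases hA b hb with h | h
  · exact Or.inr (by rwa [inv_inv])
  · exact Or.inl h

lemma wlen_inv (g : G) : wlen A g⁻¹ = wlen A g := by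
  have : {n | g⁻¹ ∈ ball A n} = {n | g ∈ ball A n} := by
    ext n
    exact ⟨fun h => by simpa using inv_mem_ball h, fun h => inv_mem_ball h⟩
  unfold wlen
  rw [this]

lemma wlen_one : wlen A (1 : G) = 0 := Nat.le_zero.1 (wlen_le (one_mem_ball 0))

lemma ball_mono {r s : ℕ} (h : r ≤ s) : ball A r ⊆ ball A s := by
  rintro x ⟨l, hl, h1, h2⟩
  exact ⟨l, hl.trans h, h1, h2⟩

lemma mem_ball_iff (hA : Gen A) {g : G} {r : ℕ} : g ∈ ball A r ↔ wlen A g ≤ r :=
  ⟨wlen_le, fun h => ball_mono h (mem_ball_wlen hA g)⟩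

lemma finite_ball (r : ℕ) : (ball A r : Set G).Finite := by
  induction r with
  | zero =>
    refine (Set.finite_singleton (1 : G)).subset ?_
    rintro x ⟨l, hl, _, rfl⟩
    have : l = [] := List.eq_nil_of_length_eq_zero (Nat.le_zero.1 hl)
    simp [this]
  | succ r ih =>
    have hfin : ({x : G | x ∈ A ∨ x⁻¹ ∈ A} : Set G).Finite := by
      have : ({x : G | x ∈ A ∨ x⁻¹ ∈ A} : Set G) = (A : Set G) ∪ (fun x => x⁻¹) ⁻¹' (A : Set G) := by
        ext x; simp
      rw [this]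
      exact A.finite_toSet.union (A.finite_toSet.preimage (inv_injective.injOn))
    refine (((Set.finite_singleton (1 : G)).union (hfin.mul ih))).subset ?_
    rintro x ⟨l, hl, hA, rfl⟩
    match l, hl, hA with
    | [], _, _ => left; simp
    | a :: l, hl, hA =>
      right
      rw [List.prod_cons]
      exact Set.mul_mem_mul (hA a (by simp)) ⟨l, by simpa using hl, fun b hb => hA b (by simp [hb]), rfl⟩

lemma wd_self (x : G) : wd A x x = 0 := by
  unfold wd; rw [inv_mul_cancel]; exact wlen_one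

lemma wd_comm (x y : G) : wd A x y = wd A y x := by
  unfold wd; rw [← wlen_inv]; congr 1; group

lemma wd_triangle (hA : Gen A) (x y z : G) : wd A x z ≤ wd A x y + wd A y z := by
  unfold wd
  have : x⁻¹ * z = (x⁻¹ * y) * (y⁻¹ * z) := by group
  rw [this]
  exact wlen_mul_le hA _ _

lemma wd_mul_left (g x y : G) : wd A (g * x) (g * y) = wd A x y := by
  unfold wd; congr 1; group

lemma wd_one (x : G) : wd A 1 x = wlen A x := by
  unfold wd; simp

lemma wd_mul_right (x b : G) : wd A x (x * b) = wlen A b := by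
  unfold wd; congr 1; group

/-- geodesics -/
lemma exists_geod (hA : Gen A) (x y : G) : ∃ c : ℕ → G, c 0 = x ∧ c (wd A x y) = y ∧
    (∀ l, wd A (c l) (c (l + 1)) ≤ 1) ∧
    (∀ l ≤ wd A x y, wd A x (c l) = l ∧ l + wd A (c l) y = wd A x y) ∧
    ∃ w : List G, (∀ a ∈ w, a ∈ A ∨ a⁻¹ ∈ A) ∧ w.length = wd A x y ∧ w.prod = x⁻¹ * y ∧
      ∀ l, c l = x * (w.take l).prod := by
  obtain ⟨w, hw, hwA, hwp⟩ := mem_ball_wlen hA (x⁻¹ * y)
  have hlen : w.length = wd A x y := le_antisymm hw (wlen_le ⟨w, le_refl _, hwA, hwp⟩)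
  have hup : ∀ l ≤ w.length, wd A x (x * (w.take l).prod) ≤ l := by
    intro l hl
    rw [wd_mul_right]
    refine wlen_le ⟨w.take l, by simp, fun a ha => hwA a (List.mem_of_mem_take ha), rfl⟩
  have hdn : ∀ l ≤ w.length, wd A (x * (w.take l).prod) y ≤ w.length - l := by
    intro l hl
    have : y = (x * (w.take l).prod) * (w.drop l).prod := by
      rw [mul_assoc, ← List.prod_append, List.take_append_drop, hwp]; group
    conv_lhs => rw [this]
    rw [wd_mul_right]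
    exact wlen_le ⟨w.drop l, by simp, fun a ha => hwA a (List.mem_of_mem_drop ha), rfl⟩
  refine ⟨fun l => x * (w.take l).prod, by simp, ?_, ?_, ?_, w, hwA, hlen, hwp, fun l => rfl⟩
  · show x * (w.take (wd A x y)).prod = y
    rw [← hlen, List.take_length, hwp]; group
  · intro l
    show wd A (x * (w.take l).prod) (x * (w.take (l + 1)).prod) ≤ 1
    rw [wd_mul_left]
    by_cases hl : l < w.length
    · rw [List.take_succ_eq_append_getElem hl, List.prod_append, wd_mul_right]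
      refine wlen_le ⟨[w[l]], by simp, ?_, by simp⟩
      intro a ha
      rw [List.mem_singleton] at ha
      rw [ha]
      exact hwA _ (List.getElem_mem hl)
    · rw [List.take_of_length_le (by omega), List.take_of_length_le (by omega), wd_self]
      omega
  · intro l hl
    show wd A x (x * (w.take l).prod) = l ∧ l + wd A (x * (w.take l).prod) y = wd A x y
    have h1 := hup l (by omega)
    have h2 := hdn l (by omega)
    have h3 := wd_triangle hA x (x * (w.take l).prod) y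
    omega

/-- Gromov's four point condition. -/
def FourPoint (A : Finset G) (δ : ℕ) : Prop := ∀ x y z w : G,
    wd A x y + wd A z w ≤ max (wd A x z + wd A y w) (wd A x w + wd A y z) + δ

/-- `x` is `e`-between `p` and `q`. -/
def Btw (A : Finset G) (e : ℕ) (p x q : G) : Prop := wd A p x + wd A x q ≤ wd A p q + e

variable {δ : ℕ}

lemma Btw.split (h4 : FourPoint A δ) {e : ℕ} {p x q : G} (h : Btw A e p x q) (r : G) :
    Btw A (e + δ) p x r ∨ Btw A (e + δ) r x q := by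
  have h1 := h4 x r p q
  have c1 := wd_comm (A := A) x p
  have c2 := wd_comm (A := A) r q
  have c3 := wd_comm (A := A) r p
  have c4 := wd_comm (A := A) x r
  unfold Btw at *
  rcases le_total (wd A x p + wd A r q) (wd A x q + wd A r p) with hm | hm
  · rw [max_eq_right hm] at h1
    left; omega
  · rw [max_eq_left hm] at h1
    right; omega

lemma Btw.symm {e : ℕ} {p x q : G} (h : Btw A e p x q) : Btw A e q x p := by
  have c1 := wd_comm (A := A) p x
  have c2 := wd_comm (A := A) x q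
  have c3 := wd_comm (A := A) p q
  unfold Btw at *
  omega

lemma Btw.mono {e e' : ℕ} {p x q : G} (h : Btw A e p x q) (he : e ≤ e') : Btw A e' p x q := by
  unfold Btw at *
  omega

lemma Btw.mul_left {e : ℕ} {p x q : G} (h : Btw A e p x q) (g : G) :
    Btw A e (g * p) (g * x) (g * q) := by
  unfold Btw at *
  rwa [wd_mul_left, wd_mul_left, wd_mul_left]

lemma Btw.move (hA : Gen A) {e β : ℕ} {p x q p' q' : G} (h : Btw A e p x q)
    (hp : wd A p p' ≤ β) (hq : wd A q q' ≤ β) : Btw A (e + 4 * β) p' x q' := by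
  have t1 := wd_triangle hA p' p x
  have t2 := wd_triangle hA x q q'
  have t3 := wd_triangle hA p p' q
  have t4 := wd_triangle hA p' q' q
  have c1 := wd_comm (A := A) p p'
  have c2 := wd_comm (A := A) q q'
  unfold Btw at *
  omega

/-- a point `x` which is `e`-between the ends of a sequence of `n ≤ 2^N` steps of length `≤ M` is
close to the sequence -/
lemma exists_near_of_btw (h4 : FourPoint A δ) (M : ℕ) (x : G) (p : ℤ → G) :
    ∀ (N : ℕ) (e : ℕ) (a : ℤ) (n : ℕ), n ≤ 2 ^ N →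
      (∀ i, a ≤ i → i < a + n → wd A (p i) (p (i + 1)) ≤ M) → Btw A e (p a) x (p (a + n)) →
      ∃ k, a ≤ k ∧ k ≤ a + n ∧ wd A x (p k) ≤ M + e + δ * N := by
  intro N
  induction N with
  | zero =>
    intro e a n hn hM hb
    have hcomm := wd_comm (A := A) (p a) x
    have hn' : n = 0 ∨ n = 1 := by simp at hn; omega
    rcases hn' with rfl | rfl
    · refine ⟨a, le_refl _, by omega, ?_⟩
      unfold Btw at hb
      simp only [Nat.cast_zero, add_zero] at hb
      rw [wd_self] at hb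
      omega
    · refine ⟨a, le_refl _, by omega, ?_⟩
      have h1 := hM a (le_refl _) (by simp)
      unfold Btw at hb
      rw [Nat.cast_one] at hb
      omega
  | succ N ih =>
    intro e a n hn hM hb
    have hn2 : n / 2 ≤ 2 ^ N := by rw [pow_succ] at hn; omega
    have hn3 : n - n / 2 ≤ 2 ^ N := by rw [pow_succ] at hn; omega
    have hδ : δ * (N + 1) = δ * N + δ := by ring
    rcases hb.split h4 (p (a + (n / 2 : ℕ))) with h | h
    · obtain ⟨k, h1, h2, h3⟩ := ih (e + δ) a (n / 2) hn2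
        (fun i hi hi' => hM i hi (by omega)) h
      refine ⟨k, h1, by omega, ?_⟩
      omega
    · have heq : a + (n : ℤ) = a + ((n / 2 : ℕ) : ℤ) + ((n - n / 2 : ℕ) : ℤ) := by omega
      rw [heq] at h
      obtain ⟨k, h1, h2, h3⟩ := ih (e + δ) (a + ((n / 2 : ℕ) : ℤ)) (n - n / 2) hn3
        (fun i hi hi' => hM i (by omega) (by omega)) h
      refine ⟨k, by omega, by omega, ?_⟩
      omega

lemma exists_lin_lt_pow (α β : ℕ) : ∃ N0 : ℕ, ∀ N, N0 ≤ N → α + β * N < 2 ^ N := by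
  have hsq : ∀ N : ℕ, 4 ≤ N → N * N ≤ 2 ^ N := by
    intro N hN
    induction N, hN using Nat.le_induction with
    | base => norm_num
    | succ N hN ih =>
      rw [pow_succ]
      nlinarith
  refine ⟨α + β + 4, fun N hN => ?_⟩
  have h1 := hsq N (by omega)
  have h2 : α + β * N < N * N := by nlinarith
  omega

theorem morse_near (hA : Gen A) (h4 : FourPoint A δ) (C e : ℕ) :
    ∃ D : ℕ, ∀ (p : ℤ → G) (a b : ℤ), a ≤ b → IsQG A C p a b →
      ∀ x, Btw A e (p a) x (p b) → ∃ i, a ≤ i ∧ i ≤ b ∧ wd A x (p i) ≤ D := by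
  -- constants
  obtain ⟨N0, hN0⟩ := exists_lin_lt_pow (2 * (6 * C * (2 * C + (e + 2 * δ)) + C)) (2 * (6 * C * δ))
  refine ⟨2 * C + (e + 2 * δ) + δ * (N0 + 1), ?_⟩
  intro p a b hab hqg x hx
  -- distance to the path
  let f : G → ℕ := fun x => sInf {n : ℕ | ∃ i, a ≤ i ∧ i ≤ b ∧ wd A x (p i) = n}
  have hf1 : ∀ x, ∃ i, a ≤ i ∧ i ≤ b ∧ wd A x (p i) = f x := fun x =>
    Nat.sInf_mem (s := {n : ℕ | ∃ i, a ≤ i ∧ i ≤ b ∧ wd A x (p i) = n}) ⟨_, a, le_refl _, hab, rfl⟩
  have hf2 : ∀ x i, a ≤ i → i ≤ b → f x ≤ wd A x (p i) := fun x i h1 h2 =>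
    Nat.sInf_le ⟨i, h1, h2, rfl⟩
  have hYfin : {x : G | Btw A e (p a) x (p b)}.Finite := by
    refine ((finite_ball (A := A) (wd A (p a) (p b) + e)).image (fun y => p a * y)).subset ?_
    intro y hy
    refine ⟨(p a)⁻¹ * y, ?_, by group⟩
    rw [mem_ball_iff hA]
    have h1 : wd A (p a) y + wd A y (p b) ≤ wd A (p a) (p b) + e := hy
    show wd A (p a) y ≤ _
    omega
  obtain ⟨x0, hx0, hmax⟩ := Set.exists_max_image {x : G | Btw A e (p a) x (p b)} f hYfin ⟨x, hx⟩
  suffices hD : f x0 ≤ 2 * C + (e + 2 * δ) + δ * (N0 + 1) by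
    obtain ⟨i, h1, h2, h3⟩ := hf1 x
    exact ⟨i, h1, h2, by rw [h3]; exact (hmax x hx).trans hD⟩
  have hx0' : wd A (p a) x0 + wd A x0 (p b) ≤ wd A (p a) (p b) + e := hx0
  -- left point
  have hL : ∃ y, wd A (p a) y + wd A y x0 = wd A (p a) x0 ∧ ∃ i, a ≤ i ∧ i ≤ b ∧
      wd A y (p i) ≤ f x0 ∧ wd A y x0 ≤ 2 * f x0 ∧ (Btw A (e + 2 * δ) y x0 (p i) →
        f x0 ≤ e + 2 * δ) := by
    by_cases hc : 2 * f x0 ≤ wd A (p a) x0
    · obtain ⟨c, _, _, _, hc2, _⟩ := exists_geod hA (p a) x0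
      obtain ⟨h1, h2⟩ := hc2 (wd A (p a) x0 - 2 * f x0) (by omega)
      set y := c (wd A (p a) x0 - 2 * f x0) with hy
      have hyY : Btw A e (p a) y (p b) := by
        have t1 := wd_triangle hA y x0 (p b)
        unfold Btw
        omega
      obtain ⟨i, hi1, hi2, hi3⟩ := hf1 y
      have hyf : f y ≤ f x0 := hmax y hyY
      refine ⟨y, by omega, i, hi1, hi2, by omega, by omega, ?_⟩
      intro hb
      have h5 := hf2 x0 i hi1 hi2
      unfold Btw at hb
      omega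
    · refine ⟨p a, by rw [wd_self]; omega, a, le_refl _, hab, by rw [wd_self]; omega, by omega, ?_⟩
      intro hb
      have h5 := hf2 x0 a (le_refl _) hab
      unfold Btw at hb
      rw [wd_self] at hb
      omega
  have hR : ∃ z, wd A x0 z + wd A z (p b) = wd A x0 (p b) ∧ ∃ i, a ≤ i ∧ i ≤ b ∧
      wd A z (p i) ≤ f x0 ∧ wd A x0 z ≤ 2 * f x0 ∧ (Btw A (e + 2 * δ) (p i) x0 z →
        f x0 ≤ e + 2 * δ) := by
    by_cases hc : 2 * f x0 ≤ wd A x0 (p b)
    · obtain ⟨c, _, _, _, hc2, _⟩ := exists_geod hA x0 (p b)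
      obtain ⟨h1, h2⟩ := hc2 (2 * f x0) (by omega)
      set z := c (2 * f x0) with hz
      have hzY : Btw A e (p a) z (p b) := by
        have t1 := wd_triangle hA (p a) x0 z
        unfold Btw
        omega
      obtain ⟨i, hi1, hi2, hi3⟩ := hf1 z
      have hzf : f z ≤ f x0 := hmax z hzY
      refine ⟨z, by omega, i, hi1, hi2, by omega, by omega, ?_⟩
      intro hb
      have h5 := hf2 x0 i hi1 hi2
      have h6 := wd_comm (A := A) (p i) x0
      have h7 := wd_comm (A := A) (p i) z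
      unfold Btw at hb
      omega
    · refine ⟨p b, by rw [wd_self]; omega, b, hab, le_refl _, by rw [wd_self]; omega, by omega, ?_⟩
      intro hb
      have h5 := hf2 x0 b hab (le_refl _)
      unfold Btw at hb
      rw [wd_self] at hb
      omega
  obtain ⟨y, hy1, i, hi1, hi2, hy2, hy3, hy4⟩ := hL
  obtain ⟨z, hz1, j, hj1, hj2, hz2, hz3, hz4⟩ := hR
  have hyz : Btw A e y x0 z := by
    have t1 := wd_triangle hA (p a) y (p b)
    have t2 := wd_triangle hA y z (p b)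
    unfold Btw
    omega
  rcases hyz.split h4 (p i) with h | h
  · have := hy4 (h.mono (by omega))
    omega
  rcases h.split h4 (p j) with h | h
  swap
  · have := hz4 (h.mono (by omega))
    omega
  have h' : Btw A (e + 2 * δ) (p i) x0 (p j) := h.mono (by omega)
  have hdist : wd A (p i) (p j) ≤ 6 * f x0 := by
    have t1 := wd_triangle hA (p i) y (p j)
    have t2 := wd_triangle hA y x0 (p j)
    have t3 := wd_triangle hA x0 z (p j)
    have c1 := wd_comm (A := A) (p i) y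
    omega
  -- order the two indices
  obtain ⟨i', n, hi'1, hi'2, hb', hd'⟩ : ∃ (i' : ℤ) (n : ℕ), a ≤ i' ∧ i' + n ≤ b ∧
      Btw A (e + 2 * δ) (p i') x0 (p (i' + n)) ∧ wd A (p i') (p (i' + n)) ≤ 6 * f x0 := by
    rcases le_total i j with hij | hij
    · obtain ⟨n, rfl⟩ := Int.le.dest hij
      exact ⟨i, n, hi1, hj2, h', hdist⟩
    · obtain ⟨n, rfl⟩ := Int.le.dest hij
      refine ⟨j, n, hj1, hi2, h'.symm, ?_⟩
      rw [wd_comm]; exact hdist
  have hn := (hqg i' (i' + n) hi'1 (by omega) hi'2).2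
  have hn' : n ≤ 6 * C * f x0 + C := by
    have h1 : i' + (n : ℤ) - i' = n := by ring
    rw [h1] at hn
    have h2 : n ≤ C * wd A (p i') (p (i' + n)) + C := by exact_mod_cast hn
    nlinarith
  by_contra hcon
  push Not at hcon
  -- choose N
  set m := 6 * C * f x0 + C with hm
  have hmpos : 0 < m ∨ m = 0 := by omega
  have hclog : m ≤ 2 ^ (Nat.clog 2 m) := Nat.le_pow_clog (by norm_num) m
  obtain ⟨k, hk1, hk2, hk3⟩ := exists_near_of_btw h4 (2 * C) x0 p (Nat.clog 2 m) (e + 2 * δ) i' n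
    (hn'.trans hclog) (fun i hi hi' => by
      have := (hqg i (i + 1) (by omega) (by omega) (by omega)).1
      have h1 : i + 1 - i = (1 : ℤ) := by ring
      rw [h1] at this
      have h2 : wd A (p i) (p (i + 1)) ≤ C * 1 + C := by exact_mod_cast this
      omega) hb'
  have hf := hf2 x0 k (by omega) (by omega)
  have hmain : f x0 ≤ 2 * C + (e + 2 * δ) + δ * Nat.clog 2 m := by omega
  have hN : N0 + 1 < Nat.clog 2 m := by
    by_contra hle
    push Not at hle
    have : δ * Nat.clog 2 m ≤ δ * (N0 + 1) := Nat.mul_le_mul_left _ hle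
    omega
  have hm2 : 2 ^ (Nat.clog 2 m - 1) < m := by
    by_contra hle
    push Not at hle
    have := (Nat.clog_le_iff_le_pow (by norm_num : 1 < 2)).2 hle
    omega
  have hpow : 2 ^ (Nat.clog 2 m) = 2 * 2 ^ (Nat.clog 2 m - 1) := by
    conv_lhs => rw [show Nat.clog 2 m = (Nat.clog 2 m - 1) + 1 by omega]
    rw [pow_succ]; ring
  have h9 := hN0 (Nat.clog 2 m) (by omega)
  have h10 : m ≤ 6 * C * (2 * C + (e + 2 * δ) + δ * Nat.clog 2 m) + C := by
    have h12 := Nat.mul_le_mul_left (6 * C) hmain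
    omega
  have h11 : 2 * m ≤ 2 * (6 * C * (2 * C + (e + 2 * δ)) + C) + 2 * (6 * C * δ) * Nat.clog 2 m := by
    nlinarith
  omega

theorem morse_btw (hA : Gen A) (h4 : FourPoint A δ) (C : ℕ) :
    ∃ K : ℕ, ∀ (p : ℤ → G) (a b : ℤ), a ≤ b → IsQG A C p a b →
      ∀ i, a ≤ i → i ≤ b → Btw A K (p a) (p i) (p b) := by
  obtain ⟨D, hD⟩ := morse_near hA h4 C 0
  refine ⟨2 * (D + (C * (C * (2 * D + 1) + C) + C)), ?_⟩
  intro p a b hab hqg i0 ha hb
  obtain ⟨c, hc0, hcL, hc1, hc2, _⟩ := exists_geod hA (p a) (p b)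
  set L := wd A (p a) (p b) with hLdef
  -- near points
  have hnear : ∀ l ≤ L, ∃ k, a ≤ k ∧ k ≤ b ∧ wd A (c l) (p k) ≤ D := by
    intro l hl
    obtain ⟨h1, h2⟩ := hc2 l hl
    refine hD p a b hab hqg (c l) ?_
    unfold Btw
    omega
  obtain ⟨l, k, k', hl, hk1, hk2, hk3, hk4, hk5, hk6⟩ : ∃ (l : ℕ) (k k' : ℤ), l ≤ L ∧ a ≤ k ∧
      k ≤ i0 ∧ i0 ≤ k' ∧ k' ≤ b ∧ wd A (c l) (p k) ≤ D ∧ wd A (p k) (p k') ≤ 2 * D + 1 := by
    by_cases hQ : ∃ k, a ≤ k ∧ k ≤ i0 ∧ wd A (c L) (p k) ≤ D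
    · obtain ⟨k, h1, h2, h3⟩ := hQ
      refine ⟨L, k, b, le_refl _, h1, h2, hb, le_refl _, h3, ?_⟩
      rw [hcL] at h3
      rw [wd_comm]
      omega
    · have : ∃ l, l < L ∧ (∃ k, a ≤ k ∧ k ≤ i0 ∧ wd A (c l) (p k) ≤ D) ∧
          ¬ ∃ k, a ≤ k ∧ k ≤ i0 ∧ wd A (c (l + 1)) (p k) ≤ D := by
        by_contra hcon
        push Not at hcon
        have hall : ∀ l ≤ L, ∃ k, a ≤ k ∧ k ≤ i0 ∧ wd A (c l) (p k) ≤ D := by
          intro l
          induction l with
          | zero =>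
            intro _
            exact ⟨a, le_refl _, ha, by rw [hc0, wd_self]; omega⟩
          | succ l ih =>
            intro hl
            exact hcon l (by omega) (ih (by omega))
        exact hQ (hall L (le_refl _))
      obtain ⟨l, hl, ⟨k, h1, h2, h3⟩, hno⟩ := this
      obtain ⟨k', h4', h5, h6⟩ := hnear (l + 1) (by omega)
      have hk' : i0 ≤ k' := by
        by_contra hlt
        exact hno ⟨k', h4', by omega, h6⟩
      refine ⟨l, k, k', by omega, h1, h2, hk', h5, h3, ?_⟩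
      have t1 := wd_triangle hA (p k) (c l) (p k')
      have t2 := wd_triangle hA (c l) (c (l + 1)) (p k')
      have t3 := hc1 l
      have c1 := wd_comm (A := A) (p k) (c l)
      omega
  have hd1 : k' - k ≤ ((C * (2 * D + 1) + C : ℕ) : ℤ) := by
    have h1 := (hqg k k' hk1 (by omega) hk4).2
    have h2 : (C : ℤ) * (wd A (p k) (p k') : ℤ) ≤ C * ((2 * D + 1 : ℕ) : ℤ) := by
      apply mul_le_mul_of_nonneg_left _ (by positivity)
      exact_mod_cast hk6
    push_cast at *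
    linarith
  have hd2 : wd A (p k) (p i0) ≤ C * (C * (2 * D + 1) + C) + C := by
    have h1 := (hqg k i0 hk1 hk2 hb).1
    have h2 : (C : ℤ) * (i0 - k) ≤ C * ((C * (2 * D + 1) + C : ℕ) : ℤ) := by
      apply mul_le_mul_of_nonneg_left _ (by positivity)
      omega
    have h3 : (wd A (p k) (p i0) : ℤ) ≤ ((C * (C * (2 * D + 1) + C) + C : ℕ) : ℤ) := by
      push_cast at *
      linarith
    exact_mod_cast h3
  have t1 := wd_triangle hA (p a) (c l) (p i0)
  have t2 := wd_triangle hA (p i0) (c l) (p b)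
  have t3 := wd_triangle hA (c l) (p k) (p i0)
  have c1 := wd_comm (A := A) (p i0) (c l)
  obtain ⟨g1, g2⟩ := hc2 l hl
  unfold Btw
  omega

/-- The Morse lemma for bi-infinite quasi-geodesics. -/
theorem morse_line (hA : Gen A) (h4 : FourPoint A δ) (C : ℕ) : ∃ D : Finset G, ∀ p q : ℤ → G,
    (∀ a b, IsQG A C p a b) → (∀ a b, IsQG A C q a b) →
    (∃ D' : Finset G, ∀ i, ∃ j, (p i)⁻¹ * q j ∈ D') → ∀ i, ∃ j, (p i)⁻¹ * q j ∈ D := by
  obtain ⟨K, hK⟩ := morse_btw hA h4 C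
  obtain ⟨D, hD⟩ := morse_near hA h4 C (K + 2 * δ)
  refine ⟨(finite_ball (A := A) D).toFinset, ?_⟩
  rintro p q hp hq ⟨D', hD'⟩ i
  obtain ⟨r, hr⟩ : ∃ r : ℕ, ∀ e ∈ D', wlen A e ≤ r := ⟨D'.sup (wlen A), fun e he => Finset.le_sup he⟩
  set n : ℕ := C * (r + K + 2 * δ) + C + 1 with hn
  obtain ⟨j1, hj1⟩ := hD' (i - n)
  obtain ⟨j2, hj2⟩ := hD' (i + n)
  have h1 : wd A (p (i - n)) (q j1) ≤ r := hr _ hj1
  have h2 : wd A (p (i + n)) (q j2) ≤ r := hr _ hj2
  have hb := hK p (i - n) (i + n) (by omega) (hp _ _) i (by omega) (by omega)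
  have hfar1 : r + K + 2 * δ < wd A (p (i - n)) (p i) := by
    by_contra hle
    push Not at hle
    have h3 := (hp (i - n) i (i - n) i (le_refl _) (by omega) (le_refl _)).2
    have h4' : i - (i - (n : ℤ)) = n := by ring
    rw [h4'] at h3
    have h5 : n ≤ C * wd A (p (i - n)) (p i) + C := by exact_mod_cast h3
    have h6 := Nat.mul_le_mul_left C hle
    omega
  have hfar2 : r + K + 2 * δ < wd A (p i) (p (i + n)) := by
    by_contra hle
    push Not at hle
    have h3 := (hp i (i + n) i (i + n) (le_refl _) (by omega) (le_refl _)).2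
    have h4' : i + (n : ℤ) - i = n := by ring
    rw [h4'] at h3
    have h5 : n ≤ C * wd A (p i) (p (i + n)) + C := by exact_mod_cast h3
    have h6 := Nat.mul_le_mul_left C hle
    omega
  rcases hb.split h4 (q j1) with h | h
  · unfold Btw at h
    omega
  rcases h.split h4 (q j2) with h | h
  swap
  · have c2 := wd_comm (A := A) (q j2) (p (i + n))
    unfold Btw at h
    omega
  have hfin : ∀ (k : ℤ), wd A (p i) (q k) ≤ D → (p i)⁻¹ * q k ∈ (finite_ball (A := A) D).toFinset := by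
    intro k hk
    rw [Set.Finite.mem_toFinset, mem_ball_iff hA]
    exact hk
  rcases le_total j1 j2 with hj | hj
  · obtain ⟨k, _, _, hk⟩ := hD q j1 j2 hj (hq _ _) (p i) (h.mono (by omega))
    exact ⟨k, hfin k hk⟩
  · obtain ⟨k, _, _, hk⟩ := hD q j2 j1 hj (hq _ _) (p i) (h.symm.mono (by omega))
    exact ⟨k, hfin k hk⟩

/-- points which are between `1` and a point of a quasi-convex subgroup -/
lemma QuasiConvex.btw (hA : Gen A) (h4 : FourPoint A δ) {S : Subgroup G} (hS : QuasiConvex A S)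
    (e : ℕ) : ∃ r : ℕ, ∀ s ∈ S, ∀ x, Btw A e 1 x s → x ∈ (S : Set G) * ball A r := by
  obtain ⟨κ, hκ⟩ := hS
  refine ⟨κ + (e + δ), ?_⟩
  intro s hs x hx
  obtain ⟨c, hc0, hcL, _, hc2, w, hwA, hwl, hwp, hwc⟩ := exists_geod hA 1 s
  have hin : ∀ l ≤ wd A 1 s, c l ∈ (S : Set G) * ball A κ := by
    intro l hl
    have h1 : w.prod = s := by rw [hwp]; simp
    have := hκ w hwA (by rw [hwl, h1, wd_one]) (by rw [h1]; exact hs) l (by omega)
    rw [hwc l, one_mul]
    exact this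
  have hnear : ∃ l ≤ wd A 1 s, wd A (c l) x ≤ e + δ := by
    refine ⟨min (wd A 1 x) (wd A 1 s), min_le_right _ _, ?_⟩
    set l := min (wd A 1 x) (wd A 1 s) with hl
    obtain ⟨h1, h2⟩ := hc2 l (min_le_right _ _)
    have c1 := wd_comm (A := A) (c l) x
    have hx' : wd A 1 x + wd A x s ≤ wd A 1 s + e := hx
    rcases hx.split h4 (c l) with h | h
    · unfold Btw at h
      omega
    · unfold Btw at h
      rcases le_total (wd A 1 x) (wd A 1 s) with hm | hm
      · have t := wd_triangle hA 1 x s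
        omega
      · have hls : l = wd A 1 s := by omega
        rw [hls, hcL, wd_comm]
        omega
  obtain ⟨l, hl, hlx⟩ := hnear
  obtain ⟨s', hs', b, hb, hsb⟩ := hin l hl
  refine ⟨s', hs', b * ((c l)⁻¹ * x), ?_, ?_⟩
  · exact mul_mem_ball hb ((mem_ball_iff hA).2 hlx)
  · show s' * (b * ((c l)⁻¹ * x)) = x
    rw [← hsb]; group

lemma finite_zpow_mem {S : Subgroup G} {g : G} (hgS : ∀ n : ℤ, n ≠ 0 → g ^ n ∉ S) {B : Set G}
    (hB : B.Finite) : {i : ℤ | g ^ i ∈ (S : Set G) * B}.Finite := by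
  have h : ∀ i : {i : ℤ | g ^ i ∈ (S : Set G) * B}, ∃ b : B, ∃ s ∈ S, s * (b : G) = g ^ (i : ℤ) := by
    rintro ⟨i, s, hs, b, hb, hsb⟩
    exact ⟨⟨b, hb⟩, s, hs, hsb⟩
  choose b s hs hsb using h
  haveI : Finite B := hB
  refine Set.finite_coe_iff.1 (Finite.of_injective b ?_)
  intro i j hij
  have h1 : g ^ ((i : ℤ) - j) = s i * (s j)⁻¹ := by
    rw [zpow_sub, ← hsb i, ← hsb j, hij]; group
  by_contra hne
  refine hgS ((i : ℤ) - j) (fun h0 => hne (Subtype.ext (by omega))) ?_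
  rw [h1]
  exact S.mul_mem (hs i) (S.inv_mem (hs j))

lemma wlen_zpow_le (hA : Gen A) (g : G) (n : ℤ) : wlen A (g ^ n) ≤ n.natAbs * wlen A g := by
  have key : ∀ n : ℕ, wlen A (g ^ n) ≤ n * wlen A g := by
    intro n
    induction n with
    | zero => simp [wlen_one]
    | succ n ih =>
      rw [pow_succ]
      have := wlen_mul_le hA (g ^ n) g
      rw [Nat.succ_mul]
      omega
  rcases Int.natAbs_eq n with h | h
  · conv_lhs => rw [h]
    rw [zpow_natCast]
    exact key _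
  · conv_lhs => rw [h]
    rw [zpow_neg, zpow_natCast, wlen_inv]
    exact key _

/-- an element of non-zero height generates a quasi-geodesic -/
lemma isQG_zpow (hA : Gen A) (u : G →* Multiplicative ℤ) (g : G) (hu : u g ≠ 1) :
    ∃ C : ℕ, ∀ a b, IsQG A C (fun n => g ^ n) a b := by
  obtain ⟨C2, hC2⟩ : ∃ C2 : ℕ, ∀ a ∈ A, |(u a).toAdd| ≤ C2 := by
    refine ⟨A.sup (fun a => (u a).toAdd.natAbs), fun a ha => ?_⟩
    have := Finset.le_sup (f := fun a => (u a).toAdd.natAbs) ha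
    rw [Int.abs_eq_natAbs]
    exact_mod_cast this
  refine ⟨max (wlen A g) C2, ?_⟩
  intro a b i j _ hij _
  have hd : wd A (g ^ i) (g ^ j) = wlen A (g ^ (j - i)) := by
    unfold wd; congr 1; rw [← zpow_neg, ← zpow_add]; congr 1; ring
  show (wd A (g ^ i) (g ^ j) : ℤ) ≤ _ ∧ _ ≤ _ * (wd A (g ^ i) (g ^ j) : ℤ) + _
  rw [hd]
  have h1 := wlen_zpow_le hA g (j - i)
  have h2 := abs_height_le u hC2 (mem_ball_wlen hA (g ^ (j - i)))
  have hv : (u g).toAdd ≠ 0 := by
    intro h0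
    exact hu (Multiplicative.toAdd.injective h0)
  have h3 : |(u (g ^ (j - i))).toAdd| = (j - i) * |(u g).toAdd| := by
    rw [map_zpow, toAdd_zpow, smul_eq_mul, abs_mul, abs_of_nonneg (by omega : (0 : ℤ) ≤ j - i)]
  have h4 : 1 ≤ |(u g).toAdd| := Int.one_le_abs hv
  have h5 : ((j - i).natAbs : ℤ) = j - i := by omega
  have h1' : (wlen A (g ^ (j - i)) : ℤ) ≤ (j - i) * wlen A g := by
    have h6 : (wlen A (g ^ (j - i)) : ℤ) ≤ ((j - i).natAbs : ℤ) * wlen A g := by exact_mod_cast h1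
    rwa [h5] at h6
  have hw : (0 : ℤ) ≤ (wlen A (g ^ (j - i)) : ℤ) := by positivity
  have hm1 : (wlen A g : ℤ) ≤ ((max (wlen A g) C2 : ℕ) : ℤ) := by exact_mod_cast le_max_left _ _
  have hm2 : (C2 : ℤ) ≤ ((max (wlen A g) C2 : ℕ) : ℤ) := by exact_mod_cast le_max_right _ _
  have hji : 0 ≤ j - i := by omega
  have hC : (0 : ℤ) ≤ ((max (wlen A g) C2 : ℕ) : ℤ) := by positivity
  rw [h3] at h2
  constructor
  · nlinarith
  · nlinarith

theorem cyclic_quasiConvex (hA : Gen A) (h4 : FourPoint A δ) (u : G →* Multiplicative ℤ) (g : G)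
    (hu : u g ≠ 1) : QuasiConvex A (Subgroup.zpowers g) := by
  obtain ⟨C, hC⟩ := isQG_zpow hA u g hu
  obtain ⟨D, hD⟩ := morse_near hA h4 C 0
  refine ⟨D, ?_⟩
  intro l hlA hlen hl i hi
  obtain ⟨n, hn⟩ := Subgroup.mem_zpowers_iff.1 hl
  have hb : Btw A 0 1 (l.take i).prod (g ^ n) := by
    have h1 : wd A 1 (l.take i).prod ≤ i := by
      rw [wd_one]
      exact wlen_le ⟨l.take i, by simp, fun a ha => hlA a (List.mem_of_mem_take ha), rfl⟩
    have h2 : wd A (l.take i).prod (g ^ n) ≤ l.length - i := by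
      have : g ^ n = (l.take i).prod * (l.drop i).prod := by
        rw [← List.prod_append, List.take_append_drop, hn]
      rw [this, wd_mul_right]
      exact wlen_le ⟨l.drop i, by simp, fun a ha => hlA a (List.mem_of_mem_drop ha), rfl⟩
    have h3 : wd A 1 (g ^ n) = l.length := by rw [wd_one, hn, hlen]
    unfold Btw
    omega
  have hfin : ∀ k : ℤ, wd A (l.take i).prod (g ^ k) ≤ D →
      (l.take i).prod ∈ ((Subgroup.zpowers g : Subgroup G) : Set G) * ball A D := by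
    intro k hk
    refine ⟨g ^ k, Subgroup.zpow_mem_zpowers g k, (g ^ k)⁻¹ * (l.take i).prod, ?_, by
      show g ^ k * ((g ^ k)⁻¹ * (l.take i).prod) = _; group⟩
    rw [mem_ball_iff hA]
    rw [wd_comm] at hk
    exact hk
  rcases le_total 0 n with h0 | h0
  · obtain ⟨k, _, _, hk⟩ := hD (fun n => g ^ n) 0 n h0 (hC _ _) (l.take i).prod (by simpa using hb)
    exact hfin k hk
  · obtain ⟨k, _, _, hk⟩ := hD (fun n => g ^ n) n 0 h0 (hC _ _) (l.take i).prod
      (by simpa using hb.symm)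
    exact hfin k hk

theorem bridge_aux (hA : Gen A) (h4 : FourPoint A δ) (u : G →* Multiplicative ℤ) (S : Subgroup G)
    (hS : QuasiConvex A S) (g : G) (hu : u g ≠ 1) (hgS : ∀ n : ℤ, n ≠ 0 → g ^ n ∉ S)
    (C : ℕ) (B : Finset G) : ∃ (D : Finset G) (j0 : ℕ), ∀ j : ℕ, j0 ≤ j →
      ∀ (p : ℤ → G) (a b : ℤ), a ≤ b → IsQG A C p a b →
        ((p a ∈ (S : Set G) * (B : Set G) ∧ (g ^ j)⁻¹ * p b ∈ (S : Set G) * (B : Set G)) ∨
          (p b ∈ (S : Set G) * (B : Set G) ∧ (g ^ j)⁻¹ * p a ∈ (S : Set G) * (B : Set G))) →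
        ∀ i : ℕ, i ≤ j → ∃ c : ℤ, a ≤ c ∧ c ≤ b ∧ (g ^ i)⁻¹ * p c ∈ D := by
  obtain ⟨Cg, hCg⟩ := isQG_zpow hA u g hu
  obtain ⟨K, hK⟩ := morse_btw hA h4 Cg
  obtain ⟨β, hβ⟩ : ∃ β : ℕ, ∀ e ∈ B, wlen A e ≤ β := ⟨B.sup (wlen A), fun e he => Finset.le_sup he⟩
  obtain ⟨r, hr⟩ := hS.btw hA h4 (K + 2 * δ)
  obtain ⟨D1, hD1⟩ := morse_near hA h4 C (K + 2 * δ + 4 * β)
  obtain ⟨J, hJ⟩ : ∃ J : ℕ, ∀ i : ℤ, g ^ i ∈ (S : Set G) * ball A r → i.natAbs ≤ J := by
    have hfin := finite_zpow_mem hgS (finite_ball (A := A) r)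
    refine ⟨hfin.toFinset.sup Int.natAbs, fun i hi => ?_⟩
    exact Finset.le_sup (f := Int.natAbs) ((Set.Finite.mem_toFinset hfin).2 hi)
  refine ⟨(finite_ball (A := A) (D1 + (J + 1) * wlen A g)).toFinset, 2 * J + 2, ?_⟩
  intro j hj p a b hab hqg hends i hij
  -- the middle indices
  have hmid : ∀ i : ℕ, J < i → i + J < j → ∃ c : ℤ, a ≤ c ∧ c ≤ b ∧ wd A (g ^ i) (p c) ≤ D1 := by
    intro i hi1 hi2
    have hb : Btw A K 1 (g ^ i) (g ^ j) := by
      have := hK (fun n => g ^ n) 0 j (by omega) (hCg _ _) i (by omega) (by omega)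
      simpa using this
    have hcore : ∀ s ∈ S, ∀ s' ∈ S, Btw A (K + 2 * δ) s (g ^ i) (g ^ j * s') := by
      intro s hs s' hs'
      rcases hb.split h4 s with h | h
      · exfalso
        have := hr s hs (g ^ i) (h.mono (by omega))
        have := hJ i (by rwa [zpow_natCast])
        omega
      rcases h.split h4 (g ^ j * s') with h | h
      · exact h.mono (by omega)
      · exfalso
        have h1 := (h.mul_left (g ^ j)⁻¹).symm
        rw [inv_mul_cancel, inv_mul_cancel_left] at h1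
        have h2 := hr s' hs' _ (h1.mono (by omega))
        have h3 : (g ^ j)⁻¹ * g ^ i = g ^ ((i : ℤ) - j) := by
          rw [zpow_sub, zpow_natCast, zpow_natCast]
          rw [← zpow_natCast, ← zpow_natCast, ← zpow_neg, ← zpow_add, ← zpow_add]
          congr 1; ring
        rw [h3] at h2
        have := hJ _ h2
        omega
    rcases hends with ⟨h1, h2⟩ | ⟨h1, h2⟩
    · obtain ⟨s, hs, b1, hb1, e1⟩ := h1
      obtain ⟨s', hs', b2, hb2, e2⟩ := h2
      have e1' : s * b1 = p a := e1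
      have e2' : s' * b2 = (g ^ j)⁻¹ * p b := e2
      have hpa : wd A s (p a) ≤ β := by rw [← e1', wd_mul_right]; exact hβ _ hb1
      have hpb : wd A (g ^ j * s') (p b) ≤ β := by
        have : p b = (g ^ j * s') * b2 := by rw [mul_assoc, e2']; group
        rw [this, wd_mul_right]; exact hβ _ hb2
      exact hD1 p a b hab hqg _ ((hcore s hs s' hs').move hA hpa hpb)
    · obtain ⟨s, hs, b1, hb1, e1⟩ := h1
      obtain ⟨s', hs', b2, hb2, e2⟩ := h2
      have e1' : s * b1 = p b := e1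
      have e2' : s' * b2 = (g ^ j)⁻¹ * p a := e2
      have hpb : wd A s (p b) ≤ β := by rw [← e1', wd_mul_right]; exact hβ _ hb1
      have hpa : wd A (g ^ j * s') (p a) ≤ β := by
        have : p a = (g ^ j * s') * b2 := by rw [mul_assoc, e2']; group
        rw [this, wd_mul_right]; exact hβ _ hb2
      exact hD1 p a b hab hqg _ ((hcore s hs s' hs').move hA hpb hpa).symm
  have hclose : ∀ i i' : ℕ, i ≤ i' + (J + 1) → i' ≤ i + (J + 1) →
      wd A (g ^ i) (g ^ i') ≤ (J + 1) * wlen A g := by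
    intro i i' h1 h2
    have h3 : wd A (g ^ i) (g ^ i') = wlen A (g ^ ((i' : ℤ) - i)) := by
      unfold wd
      congr 1
      rw [← zpow_natCast, ← zpow_natCast, ← zpow_neg, ← zpow_add]
      congr 1; ring
    rw [h3]
    refine (wlen_zpow_le hA g _).trans (Nat.mul_le_mul_right _ ?_)
    omega
  obtain ⟨i', hi1, hi2, hi3, hi4⟩ : ∃ i' : ℕ, J < i' ∧ i' + J < j ∧ i ≤ i' + (J + 1) ∧
      i' ≤ i + (J + 1) := by
    by_cases c1 : i ≤ J
    · exact ⟨J + 1, by omega, by omega, by omega, by omega⟩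
    · by_cases c2 : i + J < j
      · exact ⟨i, by omega, by omega, by omega, by omega⟩
      · exact ⟨j - (J + 1), by omega, by omega, by omega, by omega⟩
  obtain ⟨c, hc1, hc2, hc3⟩ := hmid i' hi1 hi2
  refine ⟨c, hc1, hc2, ?_⟩
  rw [Set.Finite.mem_toFinset, mem_ball_iff hA]
  have t := wd_triangle hA (g ^ i) (g ^ i') (p c)
  have := hclose i i' hi3 hi4
  show wd A (g ^ i) (p c) ≤ _
  omega

/-- The bridge lemma. -/
theorem bridge_lemma (hA : Gen A) (h4 : FourPoint A δ) (u : G →* Multiplicative ℤ) (S : Subgroup G)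
    (hS : QuasiConvex A S) (g : G) (hu : u g ≠ 1) (hgS : ∀ n : ℤ, n ≠ 0 → g ^ n ∉ S)
    (C : ℕ) (B : Finset G) : ∃ (D : Finset G) (j0 : ℕ), ∀ j : ℤ, (j0 : ℤ) ≤ |j| →
      ∀ (p : ℤ → G) (a b : ℤ), a ≤ b → IsQG A C p a b →
        ((p a ∈ (S : Set G) * (B : Set G) ∧ (g ^ j)⁻¹ * p b ∈ (S : Set G) * (B : Set G)) ∨
          (p b ∈ (S : Set G) * (B : Set G) ∧ (g ^ j)⁻¹ * p a ∈ (S : Set G) * (B : Set G))) →
        ∀ i : ℤ, (0 ≤ i ∧ i ≤ j) ∨ (j ≤ i ∧ i ≤ 0) →
          ∃ c : ℤ, a ≤ c ∧ c ≤ b ∧ (g ^ i)⁻¹ * p c ∈ D := by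
  classical
  obtain ⟨D, j0, h⟩ := bridge_aux hA h4 u S hS g hu hgS C B
  obtain ⟨D', j0', h'⟩ := bridge_aux hA h4 u S hS g⁻¹ (by simpa using hu)
    (fun n hn => by rw [inv_zpow']; exact hgS _ (by omega)) C B
  refine ⟨D ∪ D', max j0 j0', ?_⟩
  intro j hj p a b hab hqg hends i hi
  rcases hi with ⟨hi0, hij⟩ | ⟨hji, hi0⟩
  · obtain ⟨i, rfl⟩ := Int.eq_ofNat_of_zero_le hi0
    obtain ⟨j, rfl⟩ := Int.eq_ofNat_of_zero_le (hi0.trans hij)
    obtain ⟨c, h1, h2, h3⟩ := h j (by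
      rw [abs_of_nonneg (by omega)] at hj
      have : max j0 j0' ≤ j := by exact_mod_cast hj
      omega) p a b hab hqg (by simpa using hends) i (by exact_mod_cast hij)
    exact ⟨c, h1, h2, Finset.mem_union_left _ (by simpa using h3)⟩
  · obtain ⟨i', rfl⟩ : ∃ i' : ℕ, i = -(i' : ℤ) := ⟨i.natAbs, by omega⟩
    obtain ⟨j', rfl⟩ : ∃ j' : ℕ, j = -(j' : ℤ) := ⟨j.natAbs, by omega⟩
    have hconv : ∀ n : ℕ, g ^ (-(n : ℤ)) = g⁻¹ ^ n := by
      intro n; rw [zpow_neg, zpow_natCast, inv_pow]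
    obtain ⟨c, h1, h2, h3⟩ := h' j' (by
      rw [abs_neg, abs_of_nonneg (by omega)] at hj
      have : max j0 j0' ≤ j' := by exact_mod_cast hj
      omega) p a b hab hqg (by rw [hconv] at hends; exact hends) i' (by omega)
    exact ⟨c, h1, h2, Finset.mem_union_right _ (by rw [hconv]; exact h3)⟩

end Hyp

namespace Published

variable {G : Type} [Group G] (P : Published G)

/-- A closed orbit of the first flow has positive height. -/
theorem height_pos {g : G} (hg : P.Φ₁.ClosedOrbit g) : 0 < (P.u g).toAdd := by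
  obtain ⟨k, hk, hu, -⟩ := P.Φ₁.closedOrbit_line hg
  rw [hu]
  exact_mod_cast hk

/-- The powers of a closed orbit of the first flow have non-zero height. -/
theorem u_pow_ne {g : G} (hg : P.Φ₁.ClosedOrbit g) {m : ℕ} (hm : 0 < m) : P.u (g ^ m) ≠ 1 := by
  intro h
  have h1 : (P.u (g ^ m)).toAdd = 0 := by rw [h]; rfl
  rw [map_pow, toAdd_pow, nsmul_eq_mul] at h1
  have h2 := P.height_pos hg
  have h3 : (0 : ℤ) < m := by exact_mod_cast hm
  nlinarith

theorem u_ne {g : G} (hg : P.Φ₁.ClosedOrbit g) : P.u g ≠ 1 := by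
  have h := P.u_pow_ne hg one_pos
  rwa [pow_one] at h

theorem cyclic (g : G) (hu : P.u g ≠ 1) : QuasiConvex P.A (Subgroup.zpowers g) := by
  obtain ⟨δ, h4⟩ := P.hypA
  exact cyclic_quasiConvex P.genA h4 P.u g hu

theorem bridge (S : Subgroup G) (hS : QuasiConvex P.A S) (g : G) (hu : P.u g ≠ 1)
    (hgS : ∀ n : ℤ, n ≠ 0 → g ^ n ∉ S) (C : ℕ) (B : Finset G) :
    ∃ (D : Finset G) (j0 : ℕ), ∀ j : ℤ, (j0 : ℤ) ≤ |j| →
      ∀ (p : ℤ → G) (a b : ℤ), a ≤ b → IsQG P.A C p a b →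
        ((p a ∈ (S : Set G) * (B : Set G) ∧ (g ^ j)⁻¹ * p b ∈ (S : Set G) * (B : Set G)) ∨
          (p b ∈ (S : Set G) * (B : Set G) ∧ (g ^ j)⁻¹ * p a ∈ (S : Set G) * (B : Set G))) →
        ∀ i : ℤ, (0 ≤ i ∧ i ≤ j) ∨ (j ≤ i ∧ i ≤ 0) →
          ∃ c : ℤ, a ≤ c ∧ c ≤ b ∧ (g ^ i)⁻¹ * p c ∈ D := by
  obtain ⟨δ, h4⟩ := P.hypA
  exact bridge_lemma P.genA h4 P.u S hS g hu hgS C B

theorem morse (C : ℕ) : ∃ D : Finset G, ∀ p q : ℤ → G, (∀ a b, IsQG P.A C p a b) →
    (∀ a b, IsQG P.A C q a b) → (∃ D' : Finset G, ∀ i, ∃ j, (p i)⁻¹ * q j ∈ D') →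
    ∀ i, ∃ j, (p i)⁻¹ * q j ∈ D := by
  obtain ⟨δ, h4⟩ := P.hypA
  exact morse_line P.genA h4 C

end Published

end LB
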