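import Pool.Agent.H14.LB.Flow

/-!
# BAIRE: a point of an edge outside the translates of the limit set (MP_fc7159_al)
-/

open scoped Pointwise Topology

noncomputable section

namespace LB

variable {G : Type} [Group G]

lemma countable_of_gen {A : Finset G} (hA : Gen A) : Countable G := by
  have hfin : (({a : G | a ∈ A ∨ a⁻¹ ∈ A}) : Set G).Finite := by
    have : ({a : G | a ∈ A ∨ a⁻¹ ∈ A}) = (A : Set G) ∪ (A : Set G)⁻¹ := by
      ext a
      simp
    rw [this]
    exact A.finite_toSet.union A.finite_toSet.inv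
  haveI : Finite {a : G // a ∈ A ∨ a⁻¹ ∈ A} := hfin.to_subtype
  have hs : Function.Surjective
      (fun l : List {a : G // a ∈ A ∨ a⁻¹ ∈ A} => (l.map Subtype.val).prod) := by
    intro g
    obtain ⟨r, l, -, hl, rfl⟩ := exists_mem_ball hA g
    lift l to List {a : G // a ∈ A ∨ a⁻¹ ∈ A} using hl
    exact ⟨l, rfl⟩
  exact hs.countable

theorem Published.exists_generic (P : Published G) :
    ∃ x : P.Φ₁.X, ∀ g : G, ∀ ω ∈ P.Ω, P.P x ≠ g • ω := by
  by_contra hcon
  push_neg at hcon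
  haveI := countable_of_gen P.genA
  have hcont : ∀ g : G, Continuous fun a : P.M => g • a := by
    intro g
    have hL : LipschitzWith (Real.toNNReal (P.lam ^ (-(P.u g).toAdd))) fun a : P.M => g • a := by
      refine LipschitzWith.of_dist_le_mul fun a b => ?_
      rw [P.scale g a b, Real.coe_toNNReal _ (zpow_nonneg (by linarith [P.one_lt_lam]) _)]
    exact hL.continuous
  let f : Set.Icc (0 : ℝ) 1 → P.M := P.P ∘ P.arc
  have hf : Continuous f := P.P_cont.comp P.arc_cont
  have hclosed : ∀ g : G, IsClosed (f ⁻¹' ((fun a : P.M => g • a) '' P.Ω)) :=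
    fun g => (P.Ω_compact.image (hcont g)).isClosed.preimage hf
  have hcov : (⋃ g : G, f ⁻¹' ((fun a : P.M => g • a) '' P.Ω)) = Set.univ := by
    refine Set.eq_univ_of_forall fun t => ?_
    obtain ⟨g, ω, hω, h⟩ := hcon (P.arc t)
    exact Set.mem_iUnion.2 ⟨g, ω, hω, h.symm⟩
  haveI : Nonempty (Set.Icc (0 : ℝ) 1) := ⟨⟨0, by simp⟩⟩
  obtain ⟨g, ⟨x, hx⟩⟩ := nonempty_interior_of_iUnion_of_closed hclosed hcov
  rw [mem_interior_iff_mem_nhds, Metric.mem_nhds_iff] at hx
  obtain ⟨ε, hε, hball⟩ := hx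
  -- a second point of `[0,1]` close to `x`
  obtain ⟨y, hyx, hxy⟩ : ∃ y : Set.Icc (0 : ℝ) 1, y ≠ x ∧ |(y : ℝ) - x| < ε := by
    obtain ⟨x0, hx0, hx1⟩ := x
    by_cases h : x0 < 1
    · refine ⟨⟨min 1 (x0 + ε / 2), ?_, min_le_left _ _⟩, ?_, ?_⟩
      · exact le_min zero_le_one (by linarith)
      · intro he
        have := congrArg Subtype.val he
        simp only at this
        have h2 : x0 < min 1 (x0 + ε / 2) := lt_min h (by linarith)
        linarith
      · simp only
        have h2 : x0 < min 1 (x0 + ε / 2) := lt_min h (by linarith)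
        have h3 : min 1 (x0 + ε / 2) ≤ x0 + ε / 2 := min_le_right _ _
        rw [abs_of_pos (by linarith)]
        linarith
    · have h1 : x0 = 1 := le_antisymm hx1 (not_lt.1 h)
      refine ⟨⟨max 0 (x0 - ε / 2), le_max_left _ _, ?_⟩, ?_, ?_⟩
      · exact max_le zero_le_one (by linarith)
      · intro he
        have := congrArg Subtype.val he
        simp only at this
        have h2 : max 0 (x0 - ε / 2) < x0 := max_lt (by linarith) (by linarith)
        linarith
      · simp only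
        have h2 : max 0 (x0 - ε / 2) < x0 := max_lt (by linarith) (by linarith)
        have h3 : x0 - ε / 2 ≤ max 0 (x0 - ε / 2) := le_max_right _ _
        rw [abs_of_neg (by linarith)]
        linarith
  -- the segment between them
  let J : Set (Set.Icc (0 : ℝ) 1) := Set.projIcc (0 : ℝ) 1 zero_le_one '' Set.uIcc (x : ℝ) y
  have hJpre : IsPreconnected J :=
    isPreconnected_uIcc.image _ (continuous_projIcc).continuousOn
  have hxJ : x ∈ J := ⟨x, Set.left_mem_uIcc, Set.projIcc_val _ x⟩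
  have hyJ : y ∈ J := ⟨y, Set.right_mem_uIcc, Set.projIcc_val _ y⟩
  have hJsub : J ⊆ f ⁻¹' ((fun a : P.M => g • a) '' P.Ω) := by
    rintro z ⟨t, ht, rfl⟩
    apply hball
    have ht01 : t ∈ Set.Icc (0 : ℝ) 1 := by
      have := Set.uIcc_subset_Icc x.2 y.2
      exact this ht
    rw [Metric.mem_ball, Subtype.dist_eq, Set.projIcc_of_mem zero_le_one ht01, Real.dist_eq]
    exact lt_of_le_of_lt (Set.abs_sub_left_of_mem_uIcc ht) hxy
  have hfJ : IsPreconnected ((fun a : P.M => g⁻¹ • a) '' (f '' J)) :=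
    (hJpre.image _ hf.continuousOn).image _ (hcont g⁻¹).continuousOn
  have hsub : ((fun a : P.M => g⁻¹ • a) '' (f '' J)) ⊆ P.Ω := by
    rintro _ ⟨_, ⟨z, hz, rfl⟩, rfl⟩
    obtain ⟨ω, hω, he⟩ := hJsub hz
    show g⁻¹ • f z ∈ P.Ω
    rw [← he]
    show g⁻¹ • g • ω ∈ P.Ω
    rwa [inv_smul_smul]
  have hss := P.Ω_td _ hsub hfJ
  have h1 : g⁻¹ • f x = g⁻¹ • f y :=
    hss ⟨f x, ⟨x, hxJ, rfl⟩, rfl⟩ ⟨f y, ⟨y, hyJ, rfl⟩, rfl⟩
  have h2 : f x = f y := smul_left_cancel _ h1
  exact hyx (P.arc_inj h2).symm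

end LB
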