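import Mathlib

/-!
# Definitions for MP_fc7159_al (LERF and symmetric BNS invariants)

Concrete definitions of all notions of the question: word length, hyperbolicity (Gromov's four
point condition), LERF, the BNS invariant `Σ¹`, free-by-cyclic groups, irreducible monodromy.
-/

open scoped Pointwise

noncomputable section

namespace LB

/-- The set of products of at most `r` elements of `A ∪ A⁻¹`: the ball of radius `r` around `1`
in the Cayley graph of `(G, A)`. -/
def ball {G : Type} [Group G] (A : Finset G) (r : ℕ) : Set G :=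
  {g | ∃ l : List G, l.length ≤ r ∧ (∀ a ∈ l, a ∈ A ∨ a⁻¹ ∈ A) ∧ l.prod = g}

/-- The word length of `g` with respect to `A`. -/
def wlen {G : Type} [Group G] (A : Finset G) (g : G) : ℕ := sInf {n | g ∈ ball A n}

/-- The word distance `d_A(x,y) = |x⁻¹ y|_A` (the distance in the Cayley graph of `(G, A)`,
whose edges join `x` and `x a`, `a ∈ A`). -/
def wd {G : Type} [Group G] (A : Finset G) (x y : G) : ℕ := wlen A (x⁻¹ * y)

/-- `A` generates `G`. -/
def Gen {G : Type} [Group G] (A : Finset G) : Prop := Subgroup.closure (A : Set G) = ⊤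

/-- `G` is word-hyperbolic (Gromov): it has a finite generating set for which the word metric
satisfies the four point condition. -/
def IsHyperbolic (G : Type) [Group G] : Prop :=
  ∃ A : Finset G, Gen A ∧ ∃ δ : ℕ, ∀ x y z w : G,
    wd A x y + wd A z w ≤ max (wd A x z + wd A y w) (wd A x w + wd A y z) + δ

/-- `G` is LERF (subgroup separable): every finitely generated subgroup is the intersection of
the finite-index subgroups containing it. -/
def IsLERF (G : Type) [Group G] : Prop :=
  ∀ K : Subgroup G, K.FG → (K : Set G) = ⋂ H ∈ {H : Subgroup G | H.FiniteIndex ∧ K ≤ H}, (H : Set G)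

/-- The Cayley graph of `(H, S)`: `x` and `x s`, `s ∈ S`, are adjacent. -/
def cayley {H : Type} [Group H] (S : Finset H) : SimpleGraph H :=
  SimpleGraph.fromRel (fun x y => x⁻¹ * y ∈ S)

/-- A character of `H`: a homomorphism `H → ℝ`, written as a function. -/
def IsChar {H : Type} [Group H] (χ : H → ℝ) : Prop := ∀ x y, χ (x * y) = χ x + χ y

/-- The BNS invariant `Σ¹(H)` of a finitely generated group `H`, as the set of non-zero characters
`χ` whose class belongs to it: for every finite generating set `S` (equivalently, for one) the full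
subgraph of the Cayley graph on `{h | χ h ≥ 0}` is connected. It is used for the subgroups of finite
index of a finitely generated group only. -/
def sigmaOne (H : Type) [Group H] : Set (H → ℝ) :=
  {χ | IsChar χ ∧ χ ≠ 0 ∧ ∀ S : Finset H, Gen S → ((cayley S).induce {h | 0 ≤ χ h}).Connected}

/-- `Σ¹(H) = -Σ¹(H)`. -/
def SymmetricSigma (H : Type) [Group H] : Prop := ∀ χ : H → ℝ, χ ∈ sigmaOne H ↔ -χ ∈ sigmaOne H

/-- The free-by-cyclic group `F_n ⋊_φ ℤ`. -/
abbrev FreeByCyclic (n : ℕ) (φ : MulAut (FreeGroup (Fin n))) : Type :=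
  FreeGroup (Fin n) ⋊[zpowersHom (MulAut (FreeGroup (Fin n))) φ] Multiplicative ℤ

/-- The subgroups `C i` form a free product decomposition of `F`: the natural map from their
free product is an isomorphism. -/
def IsFreeDecomposition {F : Type} [Group F] {ι : Type} (C : ι → Subgroup F) : Prop :=
  Function.Bijective (Monoid.CoprodI.lift (fun i => (C i).subtype) :
    Monoid.CoprodI (fun i => (C i : Type)) →* F)

/-- `[φ]` is reducible: there is a decomposition `F = A_1 * ⋯ * A_k * B`, `k ≥ 1`, all `A_i`
non-trivial, `k ≥ 2` or `B ≠ 1`, such that `[φ]` permutes the conjugacy classes of the `A_i`. -/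
def IsReducible {F : Type} [Group F] (φ : MulAut F) : Prop :=
  ∃ (k : ℕ) (A : Fin k → Subgroup F) (B : Subgroup F), 1 ≤ k ∧ (∀ i, A i ≠ ⊥) ∧
    (2 ≤ k ∨ B ≠ ⊥) ∧
    IsFreeDecomposition (fun o : Option (Fin k) => o.elim B A) ∧
    ∃ π : Equiv.Perm (Fin k), ∀ i, ∃ w : F,
      (A i).map φ.toMonoidHom = (A (π i)).map (MulAut.conj w).toMonoidHom

/-- `G` has irreducible monodromy: it is isomorphic to some `F_n ⋊_φ ℤ`, `n ≥ 2`, with `[φ]`
irreducible. -/
def HasIrreducibleMonodromy (G : Type) [Group G] : Prop :=
  ∃ (n : ℕ) (φ : MulAut (FreeGroup (Fin n))), 2 ≤ n ∧ ¬ IsReducible φ ∧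
    Nonempty (G ≃* FreeByCyclic n φ)

end LB
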