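import Pool.Agent.H14.LB.Iface

/-!
# Basic facts on flow systems and their coarse lines (MP_fc7159_al)
-/

open scoped Pointwise Topology

noncomputable section

namespace LB

/-- The restriction of `p : ℤ → G` to `[a, b]` is a `C`-quasi-geodesic for the word metric of
`A`. -/
def IsQG {G : Type} [Group G] (A : Finset G) (C : ℕ) (p : ℤ → G) (a b : ℤ) : Prop :=
  ∀ i j : ℤ, a ≤ i → i ≤ j → j ≤ b →
    (wd A (p i) (p j) : ℤ) ≤ C * (j - i) + C ∧ j - i ≤ C * wd A (p i) (p j) + C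

/-! ## Word length -/

section Word

variable {G : Type} [Group G] {A : Finset G}

lemma one_mem_ball (r : ℕ) : (1 : G) ∈ ball A r := ⟨[], by simp, by simp, by simp⟩

lemma mul_mem_ball {x y : G} {r s : ℕ} (hx : x ∈ ball A r) (hy : y ∈ ball A s) :
    x * y ∈ ball A (r + s) := by
  obtain ⟨l, hl, hA, rfl⟩ := hx
  obtain ⟨l', hl', hA', rfl⟩ := hy
  refine ⟨l ++ l', by simpa using by omega, ?_, by simp⟩
  intro a ha
  rcases List.mem_append.1 ha with h | h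
  · exact hA a h
  · exact hA' a h

lemma exists_mem_ball (hA : Gen A) (g : G) : ∃ r, g ∈ ball A r := by
  have hg : g ∈ Subgroup.closure (A : Set G) := by
    rw [show Subgroup.closure (A : Set G) = ⊤ from hA]; trivial
  induction hg using Subgroup.closure_induction'' with
  | one => exact ⟨0, one_mem_ball 0⟩
  | mem x hx => exact ⟨1, [x], by simp, by simpa using Or.inl hx, by simp⟩
  | inv_mem x hx => exact ⟨1, [x⁻¹], by simp, by simpa using Or.inr hx, by simp⟩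
  | mul x y _ _ hx hy =>
    obtain ⟨r, hr⟩ := hx
    obtain ⟨s, hs⟩ := hy
    exact ⟨r + s, mul_mem_ball hr hs⟩

lemma mem_ball_wlen (hA : Gen A) (g : G) : g ∈ ball A (wlen A g) :=
  Nat.sInf_mem (s := {n | g ∈ ball A n}) (exists_mem_ball hA g)

lemma wlen_le {g : G} {r : ℕ} (h : g ∈ ball A r) : wlen A g ≤ r := Nat.sInf_le h

lemma wlen_mul_le (hA : Gen A) (x y : G) : wlen A (x * y) ≤ wlen A x + wlen A y :=
  wlen_le (mul_mem_ball (mem_ball_wlen hA x) (mem_ball_wlen hA y))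

lemma abs_height_le (u : G →* Multiplicative ℤ) {c : ℕ} (hc : ∀ a ∈ A, |(u a).toAdd| ≤ c) {g : G}
    {r : ℕ} (hg : g ∈ ball A r) : |(u g).toAdd| ≤ c * r := by
  obtain ⟨l, hl, hA, rfl⟩ := hg
  have key : ∀ l : List G, (∀ a ∈ l, a ∈ A ∨ a⁻¹ ∈ A) → |(u l.prod).toAdd| ≤ c * l.length := by
    intro l
    induction l with
    | nil => intro _; simp
    | cons a l ih =>
      intro h
      have h1 : |(u a).toAdd| ≤ c := by
        rcases h a (by simp) with h | h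
        · exact hc a h
        · have := hc _ h
          rwa [map_inv, toAdd_inv, abs_neg] at this
      have h2 := ih (fun b hb => h b (by simp [hb]))
      rw [List.prod_cons, map_mul, toAdd_mul, List.length_cons]
      push_cast
      calc |(u a).toAdd + (u l.prod).toAdd| ≤ |(u a).toAdd| + |(u l.prod).toAdd| := abs_add_le _ _
        _ ≤ c + c * l.length := add_le_add h1 h2
        _ = c * (l.length + 1) := by ring
  refine (key l hA).trans ?_
  have : (l.length : ℤ) ≤ r := by exact_mod_cast hl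
  have hc' : (0 : ℤ) ≤ c := by positivity
  nlinarith

end Word

namespace FlowSystem

variable {G : Type} [Group G] {u : G →* Multiplicative ℤ} (Φ : FlowSystem G u)

theorem isLine_smul (g : G) {γ : ℤ → G} (h : Φ.IsLine γ) : Φ.IsLine (fun i => g * γ i) := by
  obtain ⟨x, hx, hK⟩ := h
  refine ⟨fun i => g • x i, fun i => ?_, fun i => ?_⟩
  · show Φ.F (g • x i) = g • x (i + 1)
    rw [Φ.F_smul, hx i]
  · obtain ⟨y, hy, hxy⟩ := hK i
    refine ⟨y, hy, ?_⟩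
    show g • x i = (g * γ i) • y
    rw [hxy, mul_smul]

theorem isLine_shift (n : ℤ) {γ : ℤ → G} (h : Φ.IsLine γ) : Φ.IsLine (fun i => γ (i + n)) := by
  obtain ⟨x, hx, hK⟩ := h
  refine ⟨fun i => x (i + n), fun i => ?_, fun i => hK (i + n)⟩
  show Φ.F (x (i + n)) = x (i + 1 + n)
  rw [hx, show i + n + 1 = i + 1 + n by ring]

theorem exists_steps : ∃ E : Finset G, ∀ γ : ℤ → G, Φ.IsLine γ → ∀ i, (γ i)⁻¹ * γ (i + 1) ∈ E := by
  have hfin := Φ.proper (Φ.F '' Φ.K) (Φ.K_compact.image Φ.F_cont)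
  refine ⟨hfin.toFinset, ?_⟩
  rintro γ ⟨x, hx, hK⟩ i
  rw [Set.Finite.mem_toFinset]
  obtain ⟨y, hy, hxy⟩ := hK i
  obtain ⟨y', hy', hxy'⟩ := hK (i + 1)
  refine ⟨y', hy', y, hy, ?_⟩
  have h1 := hx i
  rw [hxy, hxy', Φ.F_smul] at h1
  rw [mul_smul, ← h1, inv_smul_smul]

theorem height_eq_level {x : ℤ → Φ.X} {γ : ℤ → G}
    (hK : ∀ i, ∃ y ∈ Φ.K, x i = γ i • y) (i : ℤ) : (u (γ i)).toAdd = Φ.level (x i) := by
  obtain ⟨y, hy, hxy⟩ := hK i
  rw [hxy, Φ.level_smul, Φ.level_K y hy, zero_add]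

theorem level_flowLine {x : ℤ → Φ.X} (hx : Φ.IsFlowLine x) (i j : ℤ) :
    Φ.level (x j) = Φ.level (x i) + (j - i) := by
  have key : ∀ (n : ℕ) (i : ℤ), Φ.level (x (i + n)) = Φ.level (x i) + n := by
    intro n
    induction n with
    | zero => intro i; simp
    | succ n ih =>
      intro i
      have : x (i + (n + 1 : ℕ)) = Φ.F (x (i + n)) := by
        rw [hx, show i + ((n + 1 : ℕ) : ℤ) = i + n + 1 by push_cast; ring]
      rw [this, Φ.level_F, ih i]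
      push_cast
      ring
  rcases le_total i j with hij | hij
  · obtain ⟨n, rfl⟩ := Int.le.dest hij
    rw [key n i]
    ring
  · obtain ⟨n, rfl⟩ := Int.le.dest hij
    rw [key n j]
    ring

theorem height_line {γ : ℤ → G} (h : Φ.IsLine γ) (i j : ℤ) :
    (u (γ j)).toAdd = (u (γ i)).toAdd + (j - i) := by
  obtain ⟨x, hx, hK⟩ := h
  rw [Φ.height_eq_level hK i, Φ.height_eq_level hK j, Φ.level_flowLine hx i j]

theorem exists_coarse {x : ℤ → Φ.X} (_hx : Φ.IsFlowLine x) :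
    ∃ γ : ℤ → G, ∀ i, ∃ y ∈ Φ.K, x i = γ i • y := by
  choose g hg using fun i => Φ.cover (x i)
  exact ⟨g, hg⟩

theorem exists_flowLine (x0 : Φ.X) : ∃ x : ℤ → Φ.X, Φ.IsFlowLine x ∧ x 0 = x0 := by
  choose r hr using Φ.F_surj
  let b : ℕ → Φ.X := fun n => Nat.rec x0 (fun _ y => r y) n
  have hb : ∀ n, Φ.F (b (n + 1)) = b n := fun n => hr (b n)
  let x : ℤ → Φ.X := fun i => match i with
    | Int.ofNat n => Φ.F^[n] x0
    | Int.negSucc n => b (n + 1)
  refine ⟨x, ?_, rfl⟩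
  intro i
  match i with
  | Int.ofNat n =>
    show Φ.F (Φ.F^[n] x0) = x (Int.ofNat n + 1)
    have : Int.ofNat n + 1 = Int.ofNat (n + 1) := rfl
    rw [this]
    show Φ.F (Φ.F^[n] x0) = Φ.F^[n + 1] x0
    rw [Function.iterate_succ_apply']
  | Int.negSucc 0 =>
    show Φ.F (b 1) = x (Int.negSucc 0 + 1)
    have : Int.negSucc 0 + 1 = 0 := rfl
    rw [this]
    exact hb 0
  | Int.negSucc (n + 1) =>
    show Φ.F (b (n + 1 + 1)) = x (Int.negSucc (n + 1) + 1)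
    have : Int.negSucc (n + 1) + 1 = Int.negSucc n := by
      rw [Int.negSucc_eq, Int.negSucc_eq]; push_cast; ring
    rw [this, hb (n + 1)]

/-- the set of coarse lines is closed under (ultrafilter) pointwise limits -/
theorem isLine_of_limit (𝒰 : Ultrafilter ℕ) (γs : ℕ → ℤ → G) (hs : ∀ n, Φ.IsLine (γs n))
    (γ : ℤ → G) (h : ∀ i, ∀ᶠ n in (𝒰 : Filter ℕ), γs n i = γ i) : Φ.IsLine γ := by
  choose xs hxs hKs using hs
  have hcpt : ∀ i : ℤ, IsCompact ((fun y : Φ.X => γ i • y) '' Φ.K) :=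
    fun i => Φ.K_compact.image (Φ.cont (γ i))
  have hlim : ∀ i : ℤ, ∃ a ∈ (fun y : Φ.X => γ i • y) '' Φ.K,
      Filter.Tendsto (fun n => xs n i) (𝒰 : Filter ℕ) (𝓝 a) := by
    intro i
    have hle : ((𝒰.map (fun n => xs n i) : Ultrafilter Φ.X) : Filter Φ.X) ≤
        Filter.principal ((fun y : Φ.X => γ i • y) '' Φ.K) := by
      rw [Filter.le_principal_iff]
      show ∀ᶠ n in (𝒰 : Filter ℕ), xs n i ∈ (fun y : Φ.X => γ i • y) '' Φ.K
      filter_upwards [h i] with n hn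
      obtain ⟨y, hy, hxy⟩ := hKs n i
      exact ⟨y, hy, by rw [hxy, hn]⟩
    obtain ⟨a, ha, hle'⟩ := (hcpt i).ultrafilter_le_nhds _ hle
    exact ⟨a, ha, hle'⟩
  choose a ha hta using hlim
  refine ⟨a, ?_, ?_⟩
  · intro i
    have h1 : Filter.Tendsto (fun n => Φ.F (xs n i)) (𝒰 : Filter ℕ) (𝓝 (Φ.F (a i))) :=
      (Φ.F_cont.tendsto (a i)).comp (hta i)
    have h2 : (fun n => Φ.F (xs n i)) = fun n => xs n (i + 1) := by
      funext n
      exact hxs n i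
    rw [h2] at h1
    exact tendsto_nhds_unique h1 (hta (i + 1))
  · intro i
    obtain ⟨y, hy, hay⟩ := ha i
    exact ⟨y, hy, hay.symm⟩

theorem isQG_line (A : Finset G) (hA : Gen A) :
    ∃ C : ℕ, ∀ γ : ℤ → G, Φ.IsLine γ → ∀ a b, IsQG A C γ a b := by
  obtain ⟨E, hE⟩ := Φ.exists_steps
  obtain ⟨C1, hC1⟩ : ∃ C1 : ℕ, ∀ e ∈ E, wlen A e ≤ C1 :=
    ⟨E.sup (wlen A), fun e he => Finset.le_sup he⟩
  obtain ⟨C2, hC2⟩ : ∃ C2 : ℕ, ∀ a ∈ A, |(u a).toAdd| ≤ C2 := by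
    refine ⟨A.sup (fun a => (u a).toAdd.natAbs), fun a ha => ?_⟩
    have := Finset.le_sup (f := fun a => (u a).toAdd.natAbs) ha
    rw [Int.abs_eq_natAbs]
    exact_mod_cast this
  refine ⟨max C1 C2, ?_⟩
  intro γ hγ a b i j _ hij _
  have hup : ∀ (n : ℕ) (i : ℤ), wlen A ((γ i)⁻¹ * γ (i + n)) ≤ C1 * n := by
    intro n
    induction n with
    | zero =>
      intro i
      simp only [Nat.cast_zero, add_zero, inv_mul_cancel, mul_zero, Nat.le_zero_eq]
      exact Nat.le_zero.1 (wlen_le (one_mem_ball 0))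
    | succ n ih =>
      intro i
      have : (γ i)⁻¹ * γ (i + (n + 1 : ℕ)) =
          ((γ i)⁻¹ * γ (i + n)) * ((γ (i + n))⁻¹ * γ (i + n + 1)) := by
        rw [show i + ((n + 1 : ℕ) : ℤ) = i + n + 1 by push_cast; ring]
        group
      rw [this]
      calc wlen A (((γ i)⁻¹ * γ (i + n)) * ((γ (i + n))⁻¹ * γ (i + n + 1)))
          ≤ wlen A ((γ i)⁻¹ * γ (i + n)) + wlen A ((γ (i + n))⁻¹ * γ (i + n + 1)) :=
            wlen_mul_le hA _ _
        _ ≤ C1 * n + C1 := add_le_add (ih i) (hC1 _ (hE γ hγ _))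
        _ = C1 * (n + 1) := by ring
  obtain ⟨n, rfl⟩ := Int.le.dest hij
  have h1 := hup n i
  have h2 : (n : ℤ) ≤ C2 * wlen A ((γ i)⁻¹ * γ (i + n)) := by
    have h3 := abs_height_le u hC2 (mem_ball_wlen hA ((γ i)⁻¹ * γ (i + n)))
    have h4 : (u ((γ i)⁻¹ * γ (i + n))).toAdd = n := by
      rw [map_mul, map_inv, toAdd_mul, toAdd_inv, Φ.height_line hγ i (i + n)]
      ring
    rw [h4] at h3
    simpa using h3
  have hn : i + (n : ℤ) - i = n := by ring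
  rw [hn]
  have hm1 : (C1 : ℤ) ≤ ((max C1 C2 : ℕ) : ℤ) := by exact_mod_cast le_max_left _ _
  have hm2 : (C2 : ℤ) ≤ ((max C1 C2 : ℕ) : ℤ) := by exact_mod_cast le_max_right _ _
  have hnn : (0 : ℤ) ≤ n := by positivity
  have hC : (0 : ℤ) ≤ ((max C1 C2 : ℕ) : ℤ) := by positivity
  constructor
  · have h1' : (wlen A ((γ i)⁻¹ * γ (i + n)) : ℤ) ≤ C1 * n := by exact_mod_cast h1
    show (wlen A ((γ i)⁻¹ * γ (i + n)) : ℤ) ≤ _
    nlinarith
  · show (n : ℤ) ≤ ((max C1 C2 : ℕ) : ℤ) * (wlen A ((γ i)⁻¹ * γ (i + n)) : ℤ) + _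
    have hw : (0 : ℤ) ≤ (wlen A ((γ i)⁻¹ * γ (i + n)) : ℤ) := by positivity
    nlinarith

lemma iterate_smul (g : G) (n : ℕ) (x : Φ.X) : Φ.F^[n] (g • x) = g • Φ.F^[n] x := by
  induction n generalizing x with
  | zero => rfl
  | succ n ih => rw [Function.iterate_succ_apply, Φ.F_smul, ih, Function.iterate_succ_apply]

lemma level_iterate (n : ℕ) (x : Φ.X) : Φ.level (Φ.F^[n] x) = Φ.level x + n := by
  induction n generalizing x with
  | zero => simp
  | succ n ih =>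
    rw [Function.iterate_succ_apply, ih, Φ.level_F]
    push_cast
    ring

theorem closedOrbit_flowLine {g : G} (h : Φ.ClosedOrbit g) : ∃ k : ℕ, 1 ≤ k ∧ (u g).toAdd = k ∧
    ∃ (x : ℤ → Φ.X) (γ : ℤ → G), Φ.IsFlowLine x ∧ (∀ i : ℤ, x (i + k) = g • x i) ∧
      (∀ i, ∃ y ∈ Φ.K, x i = γ i • y) ∧ ∀ i : ℤ, γ (i + k) = g * γ i := by
  obtain ⟨x, k, hk, hx⟩ := h
  have hk0 : (0 : ℤ) < k := by exact_mod_cast hk
  have hu : (u g).toAdd = k := by
    have h1 := Φ.level_iterate k x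
    rw [hx, Φ.level_smul] at h1
    linarith
  refine ⟨k, hk, hu, ?_⟩
  choose d hd using fun r : ℕ => Φ.cover (Φ.F^[r] x)
  have hdm : ∀ i : ℤ, (i + k) / (k : ℤ) = i / k + 1 ∧ (i + k) % (k : ℤ) = i % k := by
    intro i
    rw [Int.ediv_emod_unique hk0]
    refine ⟨?_, Int.emod_nonneg _ hk0.ne', Int.emod_lt_of_pos _ hk0⟩
    have := Int.emod_add_mul_ediv i k
    linarith
  refine ⟨fun i => g ^ (i / (k : ℤ)) • Φ.F^[(i % (k : ℤ)).toNat] x,
    fun i => g ^ (i / (k : ℤ)) * d (i % (k : ℤ)).toNat, ?_, ?_, ?_, ?_⟩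
  · intro i
    show Φ.F (g ^ (i / (k : ℤ)) • Φ.F^[(i % (k : ℤ)).toNat] x) =
      g ^ ((i + 1) / (k : ℤ)) • Φ.F^[((i + 1) % (k : ℤ)).toNat] x
    have hr0 := Int.emod_nonneg i hk0.ne'
    have hrk := Int.emod_lt_of_pos i hk0
    have hi := Int.emod_add_mul_ediv i k
    rw [Φ.F_smul, ← Function.iterate_succ_apply' Φ.F]
    by_cases hlt : i % (k : ℤ) + 1 < k
    · have h1 : (i + 1) / (k : ℤ) = i / k ∧ (i + 1) % (k : ℤ) = i % k + 1 := by
        rw [Int.ediv_emod_unique hk0]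
        exact ⟨by linarith, by omega, hlt⟩
      rw [h1.1, h1.2]
      have : (i % (k : ℤ) + 1).toNat = (i % (k : ℤ)).toNat + 1 := by omega
      rw [this]
    · have h2 : i % (k : ℤ) + 1 = k := by omega
      have h1 : (i + 1) / (k : ℤ) = i / k + 1 ∧ (i + 1) % (k : ℤ) = 0 := by
        rw [Int.ediv_emod_unique hk0]
        exact ⟨by linarith, le_refl _, hk0⟩
      rw [h1.1, h1.2]
      have : (i % (k : ℤ)).toNat.succ = k := by omega
      rw [this, hx, zpow_add_one, mul_smul]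
      rfl
  · intro i
    show g ^ ((i + k) / (k : ℤ)) • Φ.F^[((i + k) % (k : ℤ)).toNat] x =
      g • g ^ (i / (k : ℤ)) • Φ.F^[(i % (k : ℤ)).toNat] x
    rw [(hdm i).1, (hdm i).2, smul_smul, add_comm, zpow_one_add]
  · intro i
    obtain ⟨y, hy, hxy⟩ := hd (i % (k : ℤ)).toNat
    refine ⟨y, hy, ?_⟩
    show g ^ (i / (k : ℤ)) • Φ.F^[(i % (k : ℤ)).toNat] x = _
    rw [hxy, mul_smul]
  · intro i
    show g ^ ((i + k) / (k : ℤ)) * d ((i + k) % (k : ℤ)).toNat =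
      g * (g ^ (i / (k : ℤ)) * d (i % (k : ℤ)).toNat)
    rw [(hdm i).1, (hdm i).2, ← mul_assoc, add_comm, zpow_one_add]

theorem closedOrbit_line {g : G} (h : Φ.ClosedOrbit g) : ∃ k : ℕ, 1 ≤ k ∧ (u g).toAdd = k ∧
    ∃ γ : ℤ → G, Φ.IsLine γ ∧ ∀ i : ℤ, γ (i + k) = g * γ i := by
  obtain ⟨k, hk, hu, x, γ, hx, _, hK, hγ⟩ := Φ.closedOrbit_flowLine h
  exact ⟨k, hk, hu, γ, ⟨x, hx, hK⟩, hγ⟩

theorem closedOrbit_pow {g : G} (h : Φ.ClosedOrbit g) {m : ℕ} (hm : 0 < m) :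
    Φ.ClosedOrbit (g ^ m) := by
  obtain ⟨x, k, hk, hx⟩ := h
  refine ⟨x, k * m, by nlinarith [Nat.one_le_iff_ne_zero.2 hm.ne'], ?_⟩
  have key : ∀ m : ℕ, Φ.F^[k * m] x = g ^ m • x := by
    intro m
    induction m with
    | zero => simp
    | succ m ih =>
      rw [Nat.mul_succ, Function.iterate_add_apply, hx, Φ.iterate_smul, ih, pow_succ', mul_smul]
  exact key m

end FlowSystem

end LB
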