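import Pool.Agent.H14.LB.Defs

/-!
# Published input for MP_fc7159_al

`FlowSystem G u`: the flow space of an expanding irreducible train track map.
`Published G`: the published theorems used, for a hyperbolic group `G` with irreducible
monodromy.
-/

open scoped Pointwise

noncomputable section

namespace LB

/-- `S` is a quasi-convex subgroup of `G` (word metric of `A`): for some `κ`, every geodesic word
from `1` to a point of `S` stays in the `κ`-neighbourhood of `S`. -/
def QuasiConvex {G : Type} [Group G] (A : Finset G) (S : Subgroup G) : Prop :=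
  ∃ κ : ℕ, ∀ l : List G, (∀ a ∈ l, a ∈ A ∨ a⁻¹ ∈ A) → l.length = wlen A l.prod → l.prod ∈ S →
    ∀ i ≤ l.length, (l.take i).prod ∈ (S : Set G) * ball A κ

/-- The flow space of a train track map, for the height function `u : G → ℤ`.

For `G = F ⋊_Φ ⟨t⟩` (`t w t⁻¹ = Φ(w)`), an expanding irreducible train track map `f : Γ → Γ`
representing `[Φ^ε]` (`ε = ±1`) with lift `f̃` to the universal cover `Γ̃`,
`f̃(w z) = Φ^ε(w) f̃(z)`: `X = Γ̃ × ℤ`, `w (z,k) = (Φ^{εk}(w) z, k)`, `t (z,k) = (z, k - ε)`,
`F (z,k) = (f̃ z, k+1)`, `level (z,k) = k`, `u (w t^i) = -ε i`, and `K` is the union of the closed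
edges of a finite fundamental domain for `F` on `Γ̃ × {0}`. -/
structure FlowSystem (G : Type) [Group G] (u : G →* Multiplicative ℤ) where
  /-- the flow space -/
  X : Type
  top : TopologicalSpace X
  t2 : T2Space X
  act : MulAction G X
  /-- `G` acts by homeomorphisms -/
  cont : ∀ g : G, Continuous fun x : X => g • x
  /-- a compact set whose translates cover -/
  K : Set X
  K_compact : IsCompact K
  cover : ∀ x : X, ∃ g : G, ∃ y ∈ K, x = g • y
  /-- properness of the action -/
  proper : ∀ L : Set X, IsCompact L → {g : G | ∃ y ∈ K, g • y ∈ L}.Finite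
  /-- the level (height) -/
  level : X → ℤ
  level_smul : ∀ (g : G) (x : X), level (g • x) = level x + (u g).toAdd
  level_K : ∀ x ∈ K, level x = 0
  /-- the flow by one unit -/
  F : X → X
  F_cont : Continuous F
  F_smul : ∀ (g : G) (x : X), F (g • x) = g • F x
  level_F : ∀ x, level (F x) = level x + 1
  F_surj : Function.Surjective F

namespace FlowSystem

attribute [instance] FlowSystem.top FlowSystem.t2 FlowSystem.act

variable {G : Type} [Group G] {u : G →* Multiplicative ℤ} (Φ : FlowSystem G u)

/-- A bi-infinite flow line. -/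
def IsFlowLine (x : ℤ → Φ.X) : Prop := ∀ i, Φ.F (x i) = x (i + 1)

/-- A coarse flow line: `γ i` is a group element whose translate of `K` contains the `i`-th point
of a flow line. -/
def IsLine (γ : ℤ → G) : Prop := ∃ x : ℤ → Φ.X, Φ.IsFlowLine x ∧ ∀ i, ∃ y ∈ Φ.K, x i = γ i • y

/-- `g` is (represents) a closed orbit of the flow. -/
def ClosedOrbit (g : G) : Prop := ∃ (x : Φ.X) (k : ℕ), 1 ≤ k ∧ Φ.F^[k] x = g • x

end FlowSystem

/-- The restriction of `u` to a subgroup, as a real character. -/
def height {G : Type} [Group G] (u : G →* Multiplicative ℤ) (H : Subgroup G) : H → ℝ :=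
  fun h => ((u (h : G)).toAdd : ℝ)

/-- The published theorems, for a hyperbolic group `G` with a splitting
`G = F_n ⋊_φ ℤ`, `n ≥ 2`, `[φ]` irreducible. (`[φ]` is then atoroidal and fully irreducible,
Dowdall-Kapovich-Leininger.) Both `φ` and `φ⁻¹` have expanding irreducible train track
representatives (Bestvina-Handel 1992). By the classification of Coulbois-Hilion (Botany of
irreducible automorphisms of free groups, Pacific J. Math. 2012), since `[φ]` is not geometric, at
least one of the attracting trees `T_φ`, `T_{φ⁻¹}` is of (pseudo-)Levitt type; the indices `₁`, `₂` are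
chosen so that the train track map of `Φ₁` represents the one of `φ`, `φ⁻¹` whose attracting tree
`T` is of Levitt type, and that of `Φ₂` represents its inverse. -/
structure Published (G : Type) [Group G] where
  /-- the projection `G → ℤ` of the splitting, with the sign for which the flow of `Φ₁` is
  increasing -/
  u : G →* Multiplicative ℤ
  /-- a finite generating set, as in the definition of hyperbolic -/
  A : Finset G
  genA : Gen A
  /-- the four point condition, from the hyperbolicity of `G` -/
  hypA : ∃ δ : ℕ, ∀ x y z w : G,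
    wd A x y + wd A z w ≤ max (wd A x z + wd A y w) (wd A x w + wd A y z) + δ
  /-- flow space of the first train track map -/
  Φ₁ : FlowSystem G u
  /-- flow space of the train track map of the inverse automorphism; it flows in the opposite
  direction -/
  Φ₂ : FlowSystem G u⁻¹
  /-- Dowdall-Kapovich-Leininger (McMullen polynomials and Lipschitz flows for free-by-cyclic
  groups, J. Eur. Math. Soc. 2017), applied to the finite-index subgroup `H` and the lift of a
  power of the train track map (which is again an expanding irreducible train track map, by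
  Bestvina-Feighn-Handel 1997, Prop. 2.4): the component of `Σ¹(H)` that contains `u|H` is the
  cone of the classes which are positive on the closed orbits. -/
  cone₁ : ∀ H : Subgroup G, H.FiniteIndex →
    connectedComponentIn (sigmaOne H) (height u H) =
      {v : H → ℝ | IsChar v ∧ ∀ h : H, Φ₁.ClosedOrbit (h : G) → 0 < v h}
  /-- in the same theorem: the cone is cut out by finitely many closed orbits (it is an open
  rational polyhedral cone) -/
  finite₁ : ∀ H : Subgroup G, H.FiniteIndex → ∃ Z : Finset H,
    (∀ z ∈ Z, Φ₁.ClosedOrbit (z : G)) ∧ ∀ v : H → ℝ, IsChar v → (∀ z ∈ Z, 0 < v z) →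
      ∀ h : H, Φ₁.ClosedOrbit (h : G) → 0 < v h
  /-- the same theorem for the inverse automorphism -/
  cone₂ : ∀ H : Subgroup G, H.FiniteIndex →
    connectedComponentIn (sigmaOne H) (height u⁻¹ H) =
      {v : H → ℝ | IsChar v ∧ ∀ h : H, Φ₂.ClosedOrbit (h : G) → 0 < v h}
  /-- closed orbits are dense (an expanding Markov map with irreducible transition matrix is
  topologically transitive and its periodic points are dense, also for two-sided itineraries):
  every flow line agrees on `[-n, n]`, up to lying in the same translate of `K`, with a periodic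
  one -/
  dense₁ : ∀ x : ℤ → Φ₁.X, Φ₁.IsFlowLine x → ∀ n : ℕ, ∃ x' : ℤ → Φ₁.X, Φ₁.IsFlowLine x' ∧
    (∃ (g : G) (k : ℕ), 1 ≤ k ∧ ∀ i : ℤ, x' (i + k) = g • x' i) ∧
    ∀ i : ℤ, |i| ≤ n → ∃ a : G, (∃ y ∈ Φ₁.K, x i = a • y) ∧ (∃ y ∈ Φ₁.K, x' i = a • y)
  /-- the metric completion of the attracting tree `T` of the automorphism of `Φ₁`, a real tree -/
  M : Type
  metM : MetricSpace M
  /-- `G` acts on it by homotheties (`F` by isometries, `t` by the homothety `H^{±1}`) -/
  actM : MulAction G M
  /-- the stretch factor -/
  lam : ℝ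
  one_lt_lam : 1 < lam
  scale : ∀ (g : G) (a b : M), dist (g • a) (g • b) = lam ^ (-(u g).toAdd) * dist a b
  /-- `P (z,k) = H^{-k} (i z)`, `i : Γ̃ → T` the canonical map of the train track map
  (`i ∘ f̃ = H ∘ i`) -/
  P : Φ₁.X → M
  P_cont : Continuous P
  P_smul : ∀ (g : G) (x : Φ₁.X), P (g • x) = g • P x
  P_flow : ∀ x, P (Φ₁.F x) = P x
  /-- an edge of `Γ̃ × {0}`; `i` is isometric on edges -/
  arc : Set.Icc (0 : ℝ) 1 → Φ₁.X
  arc_cont : Continuous arc
  arc_inj : Function.Injective (P ∘ arc)
  /-- the limit set `Ω_A` of the tree `T`; it is compact, and totally disconnected because `T` is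
  of Levitt type (Coulbois-Hilion) -/
  Ω : Set M
  Ω_compact : IsCompact Ω
  Ω_td : IsTotallyDisconnected Ω
  /-- a compact set in the level `0` of the flow space of `Φ₁` -/
  K' : Set Φ₁.X
  K'_compact : IsCompact K'
  K'_level : ∀ y ∈ K', Φ₁.level y = 0
  C' : ℝ
  /-- Through every flow line of `Φ₂` there is a leaf of the attracting lamination of the
  automorphism of `Φ₂`, that is: two distinct ends `Y₁, Y₂` of `F` such that in every level the
  line from `Y₁` to `Y₂` passes through the flow line (Bestvina-Feighn-Handel 1997). Leaves of this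
  lamination are dual to `T`: `Q(Y₁) = Q(Y₂) = q` (Bestvina-Feighn-Handel, Coulbois-Hilion-Lustig,
  Kapovich-Lustig), so `q` is in the `F`-orbit of the limit set `Ω_A`; and by bounded backtracking
  (Gaboriau-Jaeger-Levitt-Lustig) the line from `Y₁` to `Y₂` in the level `k` is mapped by `P` to
  the `C' lam^{-k}`-neighbourhood of `q`. -/
  leaf : ∀ γ : ℤ → G, Φ₂.IsLine γ → ∃ q : M, (∃ g : G, ∃ ω ∈ Ω, q = g • ω) ∧
    ∀ j : ℤ, ∃ y ∈ K', dist (P (γ j • y)) q ≤ C' * lam ^ (-(Φ₁.level (γ j • y)))
  /-- Cocompact cubulation (Hagen-Wise, Cubulating hyperbolic free-by-cyclic groups: the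
  irreducible case, Duke 2016), together with: some hyperplane is skewered by `g` (Sageev,
  Haglund, Caprace-Sageev), and stabilizers of halfspaces are quasi-convex. `U` is the set of the group
  elements which move a base vertex into the halfspace, `S` the stabilizer of the halfspace. -/
  walls : ∀ g : G, (∀ n : ℕ, 0 < n → g ^ n ≠ 1) → ∃ (S : Subgroup G) (U : Set G),
    QuasiConvex A S ∧ (∀ s ∈ S, ∀ x, s * x ∈ U ↔ x ∈ U) ∧
    (∀ e : G, ∃ B : Finset G, ∀ x, ¬ (x ∈ U ↔ x * e ∈ U) → x ∈ (S : Set G) * (B : Set G)) ∧
    (∃ n0 : ℕ, ∀ n : ℕ, n0 ≤ n → g ^ n ∈ U ∧ (g ^ n)⁻¹ ∉ U)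
  /-- `G` is virtually special (Hagen-Wise, Agol), so quasi-convex subgroups are separable
  (Haglund-Wise) and so are the products of finitely many of them (Minasyan, Separable subsets of
  GFERF negatively curved groups, J. Algebra 2006) -/
  separable : ∀ S₁ S₂ S₃ : Subgroup G, QuasiConvex A S₁ → QuasiConvex A S₂ → QuasiConvex A S₃ →
    ∀ x : G, x ∉ (S₁ : Set G) * (S₂ : Set G) * (S₃ : Set G) →
      ∃ N : Subgroup G, N.Normal ∧ N.FiniteIndex ∧
        ∀ ν ∈ N, x * ν ∉ (S₁ : Set G) * (S₂ : Set G) * (S₃ : Set G)

attribute [instance] Published.metM Published.actM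

end LB
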